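import Mathlib

/-!
# MP_180e15_co, Q1: the chain maximises the degree of noninvertibility of extended promotion

Definitions, for a finite poset `α` with `n` elements:

* `labelings α`: the bijections from `α` to `{1, …, n}` (as functions `α → ℕ`);
* `IsSucc L x y`: `y` is the `L`-successor of `x`, the element above `x` with smallest label;
* `OnChain L`: the promotion chain of `L`; it starts with the element of label `1`, and each
  non-maximal element of it is followed by its `L`-successor;
* `promotion L`: extended promotion `∂(L)`; it is `L x - 1` off the promotion chain, `L y - 1` if `x`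
  is on the chain and `y` is its `L`-successor, and `n` if `x` is the maximal element of the chain;
* `degree α = (1 / |Λ|) ∑_{L' ∈ Λ} |{L ∈ Λ : ∂ L = L'}|²` with `Λ = labelings α`.

Theorem: `degree α ≤ (n + 2) (n + 1) / 6`.

Proof.  In terms of the word `a₁ a₂ ⋯ aₙ` (`aᵢ` has label `i`) promotion is a bubble pass
(`bub`).  The number of preimages of a word `w x` is `cnt x w`, the number of chains below `x` of
elements which have the smallest label among the elements above them.  If `b` is the first letter of
`w = b v`, then `cnt x w = 0` for `x < b`, and otherwise `cnt x w` is the sum of `cnt x` of the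
subword of `v` of the letters which are not below `b` and (if `b < x`) of `cnt x` of the subword of
the letters above `b` (`cnt_cons`).  With `S(B) = |B| deg(∂_B)` this gives by the inequality
`(f + g)² ≤ (1 + l) f² + (1 + 1/l) g²`, `l = (q + 2) / (m + 2)`, and by induction
`(n - 1) S(B) ≤ ∑_{b ∈ B} Φ(m_b, q_b) / 6`, where `m_b` is the number of the elements which are not
`≤ b`, `q_b` the number of elements `> b`, and `Φ(m, q) = (m + q + 2) (m² + 3 m + q² + q)`.
Finally `∑_b Φ(m_b, q_b) ≤ (n + 2) (n + 1) n (n - 1)` (`sum_Phi_le`), by induction on `n`: remove an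
element with the largest number of elements above it.
-/

set_option autoImplicit false

open Finset

namespace Pool.Agent.Results.MP_180e15_co.ChainMaximises

section defs
variable {α : Type*} [PartialOrder α]

/-- `y` is the `L`-successor of `x`: the element above `x` with the smallest label -/
def IsSucc (L : α → ℕ) (x y : α) : Prop := x < y ∧ ∀ z, x < z → L y ≤ L z

/-- the elements of the promotion chain of `L`: it starts with the element of label `1` and with an
element contains its `L`-successor -/
inductive OnChain (L : α → ℕ) : α → Prop
  | first {x : α} : L x = 1 → OnChain L x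
  | next {x y : α} : OnChain L x → IsSucc L x y → OnChain L y

open Classical in
/-- extended promotion -/
noncomputable def promotion [Fintype α] (L : α → ℕ) (x : α) : ℕ :=
  if OnChain L x then
    if h : ∃ y, IsSucc L x y then L h.choose - 1 else Fintype.card α
  else L x - 1

end defs

/-- the labelings of `α`: the bijections from `α` to `{1, …, n}`, `n = |α|` -/
def labelings (α : Type*) [Fintype α] [DecidableEq α] : Finset (α → ℕ) :=
  (Fintype.piFinset fun _ : α => Finset.Icc 1 (Fintype.card α)).filter Function.Injective

open Classical in
/-- the degree of noninvertibility `(1 / |X|) ∑ |f⁻¹(x)|²` of the promotion map on the set `X` of the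
labelings -/
noncomputable def degree (α : Type*) [PartialOrder α] [Fintype α] : ℚ :=
  (∑ L' ∈ labelings α, (((labelings α).filter fun L => promotion L = L').card : ℚ) ^ 2) /
    (labelings α).card

/-! ## An inequality for posets -/

section ineq
variable {α : Type*} [PartialOrder α] [DecidableEq α] [DecidableRel (α := α) (· ≤ ·)]
  [DecidableRel (α := α) (· < ·)]

/-- the number of elements of `B` which are not `≤ b` -/
def mm (B : Finset α) (b : α) : ℕ := (B.filter fun y => ¬ y ≤ b).card

/-- the number of elements of `B` which are `> b` -/
def qq (B : Finset α) (b : α) : ℕ := (B.filter fun y => b < y).card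

/-- the weight -/
def Phi (m q : ℤ) : ℤ := (m + q + 2) * (m ^ 2 + 3 * m + q ^ 2 + q)

lemma sum_Phi_le (B : Finset α) :
    ∑ b ∈ B, Phi (mm B b) (qq B b) ≤
      ((B.card : ℤ) + 2) * (B.card + 1) * B.card * (B.card - 1) := by
  induction hn : B.card generalizing B with
  | zero =>
    rw [Finset.card_eq_zero] at hn
    simp [hn]
  | succ k ih =>
    have hne : B.Nonempty := by
      rw [← Finset.card_pos]
      omega
    obtain ⟨z, hz, hmax⟩ := Finset.exists_max_image B (qq B) hne
    -- `z` is minimal
    have hmin : ∀ y ∈ B, ¬ y < z := by
      intro y hy hyz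
      have h1 := hmax y hy
      have h2 : (B.filter fun t => z < t) ⊂ (B.filter fun t => y < t) := by
        rw [Finset.ssubset_iff_of_subset]
        · exact ⟨z, by simp [hz, hyz], by simp⟩
        · intro t ht
          simp only [Finset.mem_filter] at ht ⊢
          exact ⟨ht.1, hyz.trans ht.2⟩
      have h3 := Finset.card_lt_card h2
      unfold qq at h1
      omega
    set B' := B.erase z with hB'
    have hcard : B'.card = k := by
      rw [hB', Finset.card_erase_of_mem hz]
      omega
    have hih := ih B' hcard
    rw [← Finset.add_sum_erase B _ hz]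
    -- values
    have hq : ∀ b ∈ B', qq B b = qq B' b := by
      intro b hb
      unfold qq
      congr 1
      ext t
      simp only [hB', Finset.mem_filter, Finset.mem_erase]
      constructor
      · rintro ⟨h1, h2⟩
        refine ⟨⟨?_, h1⟩, h2⟩
        rintro rfl
        exact hmin b (Finset.mem_of_mem_erase hb) h2
      · rintro ⟨⟨_, h1⟩, h2⟩
        exact ⟨h1, h2⟩
    have hm1 : ∀ b ∈ B', z < b → mm B b = mm B' b := by
      intro b hb hzb
      unfold mm
      congr 1
      ext t
      simp only [hB', Finset.mem_filter, Finset.mem_erase]
      constructor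
      · rintro ⟨h1, h2⟩
        refine ⟨⟨?_, h1⟩, h2⟩
        rintro rfl
        exact h2 hzb.le
      · rintro ⟨⟨_, h1⟩, h2⟩
        exact ⟨h1, h2⟩
    have hm2 : ∀ b ∈ B', ¬ z < b → mm B b = mm B' b + 1 := by
      intro b hb hzb
      unfold mm
      have hbz : b ≠ z := (Finset.mem_erase.1 hb).1
      have e : (B.filter fun y => ¬ y ≤ b) = insert z (B'.filter fun y => ¬ y ≤ b) := by
        ext t
        simp only [hB', Finset.mem_filter, Finset.mem_erase, Finset.mem_insert]
        constructor
        · rintro ⟨h1, h2⟩
          by_cases htz : t = z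
          · exact Or.inl htz
          · exact Or.inr ⟨⟨htz, h1⟩, h2⟩
        · rintro (rfl | ⟨⟨_, h1⟩, h2⟩)
          · exact ⟨hz, fun h => hzb (lt_of_le_of_ne h (Ne.symm hbz))⟩
          · exact ⟨h1, h2⟩
      rw [e, Finset.card_insert_of_notMem]
      simp [hB']
    have hmz : mm B z = k := by
      unfold mm
      rw [← hcard]
      congr 1
      ext t
      simp only [hB', Finset.mem_filter, Finset.mem_erase]
      constructor
      · rintro ⟨h1, h2⟩
        exact ⟨fun h => h2 h.le, h1⟩
      · rintro ⟨h1, h2⟩
        exact ⟨h2, fun h => hmin t h2 (lt_of_le_of_ne h h1)⟩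
    have hmb : ∀ b ∈ B', mm B' b + 1 ≤ k := by
      intro b hb
      unfold mm
      have h1 : (B'.filter fun y => ¬ y ≤ b) ⊂ B' := by
        rw [Finset.ssubset_iff_of_subset (Finset.filter_subset _ _)]
        exact ⟨b, hb, by simp⟩
      have := Finset.card_lt_card h1
      omega
    -- the sum
    set Q := qq B z with hQ
    have hle : ∀ b ∈ B', Phi (mm B b) (qq B b) ≤ Phi (mm B' b) (qq B' b) +
        if z < b then 0 else Phi k Q - Phi (k - 1) Q := by
      intro b hb
      rw [hq b hb]
      split_ifs with hzb
      · rw [hm1 b hb hzb]
        simp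
      · rw [hm2 b hb hzb]
        have h1 : (qq B' b : ℤ) ≤ Q := by
          rw [← hq b hb]
          exact_mod_cast hmax b (Finset.mem_of_mem_erase hb)
        have h2 : (mm B' b : ℤ) + 1 ≤ k := by exact_mod_cast hmb b hb
        have h3 : (0 : ℤ) ≤ mm B' b := by positivity
        have h4 : (0 : ℤ) ≤ qq B' b := by positivity
        push_cast
        generalize (mm B' b : ℤ) = m at *
        generalize (qq B' b : ℤ) = q at *
        generalize (Q : ℤ) = R at *
        generalize (k : ℤ) = K at *
        have e1 : Phi (m + 1) q - Phi m q =
            3 * (m + 1) ^ 2 + 7 * (m + 1) + 2 + 2 * (m + 1) * q + 3 * q + q ^ 2 := by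
          unfold Phi
          ring
        have e2 : Phi K R - Phi (K - 1) R =
            3 * K ^ 2 + 7 * K + 2 + 2 * K * R + 3 * R + R ^ 2 := by
          unfold Phi
          ring
        have e3 : (m + 1) ^ 2 ≤ K ^ 2 := pow_le_pow_left₀ (by omega) h2 2
        have e4 : q ^ 2 ≤ R ^ 2 := pow_le_pow_left₀ h4 h1 2
        have e5 : (m + 1) * q ≤ K * R := mul_le_mul h2 h1 h4 (by omega)
        nlinarith
    have hcount : (B'.filter fun b => ¬ z < b).card + Q = k := by
      have h1 := Finset.card_filter_add_card_filter_not (s := B') (fun b => z < b)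
      have h2 : (B'.filter fun b => z < b).card = Q := by
        rw [hQ]
        unfold qq
        congr 1
        ext t
        simp only [hB', Finset.mem_filter, Finset.mem_erase]
        constructor
        · rintro ⟨⟨_, h1⟩, h2⟩
          exact ⟨h1, h2⟩
        · rintro ⟨h1, h2⟩
          exact ⟨⟨h2.ne', h1⟩, h2⟩
      omega
    have hsum : ∑ b ∈ B', Phi (mm B b) (qq B b) ≤ ∑ b ∈ B', Phi (mm B' b) (qq B' b) +
        ((k : ℤ) - Q) * (Phi k Q - Phi (k - 1) Q) := by
      refine (Finset.sum_le_sum hle).trans ?_
      rw [Finset.sum_add_distrib, Finset.sum_ite, Finset.sum_const_zero, zero_add,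
        Finset.sum_const, nsmul_eq_mul]
      have : ((B'.filter fun b => ¬ z < b).card : ℤ) = k - Q := by
        have := hcount
        omega
      rw [this]
    rw [hmz]
    have hfin : Phi k Q + ((k : ℤ) - Q) * (Phi k Q - Phi (k - 1) Q) =
        4 * k * (k + 1) * (k + 2) := by
      unfold Phi
      ring
    push_cast
    have hgoal : ((k : ℤ) + 2) * (k + 1) * k * (k - 1) + 4 * k * (k + 1) * (k + 2) =
        (k + 1 + 2) * (k + 1 + 1) * (k + 1) * (k + 1 - 1) := by ring
    linarith

end ineq

section average
variable {α : Type*} [DecidableEq α]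

/-- the average of `h` over all enumerations of the `k`-element set `A` -/
def E : ℕ → Finset α → (List α → ℚ) → ℚ
  | 0, _, h => h []
  | k + 1, A, h => (∑ b ∈ A, E k (A.erase b) fun w => h (b :: w)) / (k + 1)

lemma E_zero (A : Finset α) (h : List α → ℚ) : E 0 A h = h [] := rfl

lemma E_succ (k : ℕ) (A : Finset α) (h : List α → ℚ) :
    E (k + 1) A h = (∑ b ∈ A, E k (A.erase b) fun w => h (b :: w)) / (k + 1) := rfl

lemma E_mono (k : ℕ) : ∀ (A : Finset α) (h h' : List α → ℚ), (∀ w, h w ≤ h' w) →
    E k A h ≤ E k A h' := by
  induction k with
  | zero =>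
    intro A h h' hh
    exact hh []
  | succ k ih =>
    intro A h h' hh
    unfold E
    have : (0 : ℚ) < k + 1 := by positivity
    rw [div_le_div_iff_of_pos_right this]
    exact Finset.sum_le_sum fun b _ => ih _ _ _ fun w => hh _

lemma E_add (k : ℕ) : ∀ (A : Finset α) (h h' : List α → ℚ),
    E k A (fun w => h w + h' w) = E k A h + E k A h' := by
  induction k with
  | zero =>
    intro A h h'
    rfl
  | succ k ih =>
    intro A h h'
    unfold E
    rw [← add_div, ← Finset.sum_add_distrib]
    congr 1
    exact Finset.sum_congr rfl fun b _ => ih _ _ _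

lemma E_smul (k : ℕ) : ∀ (A : Finset α) (c : ℚ) (h : List α → ℚ),
    E k A (fun w => c * h w) = c * E k A h := by
  induction k with
  | zero =>
    intro A c h
    rfl
  | succ k ih =>
    intro A c h
    unfold E
    rw [mul_div_assoc', Finset.mul_sum]
    congr 1
    exact Finset.sum_congr rfl fun b _ => ih _ _ _

lemma E_zero_fun (k : ℕ) (A : Finset α) : E k A (fun _ => 0) = 0 := by
  have := E_smul k A 0 (fun _ => 0)
  simpa using this

/-- restricting a random enumeration to a subset gives a random enumeration of the subset -/
lemma E_filter (p : α → Prop) [DecidablePred p] (k : ℕ) : ∀ (A : Finset α), A.card = k →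
    ∀ h : List α → ℚ, E k A (fun w => h (w.filter p)) = E (A.filter p).card (A.filter p) h := by
  induction k with
  | zero =>
    intro A hA h
    rw [Finset.card_eq_zero] at hA
    subst hA
    simp [E]
  | succ k ih =>
    intro A hA h
    rw [E_succ]
    have h1 : ∀ b ∈ A, E k (A.erase b) (fun w => h ((b :: w).filter p)) =
        if p b then E ((A.filter p).card - 1) ((A.filter p).erase b) (fun w => h (b :: w))
        else E (A.filter p).card (A.filter p) h := by
      intro b hb
      have hc : (A.erase b).card = k := by
        rw [Finset.card_erase_of_mem hb]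
        omega
      split_ifs with hpb
      · have e : (fun w : List α => h ((b :: w).filter p)) =
            fun w : List α => (fun v => h (b :: v)) (w.filter p) := by
          funext w
          simp [hpb]
        rw [e, ih _ hc (fun v => h (b :: v))]
        have e2 : (A.erase b).filter p = (A.filter p).erase b := by
          ext t
          simp only [Finset.mem_filter, Finset.mem_erase]
          tauto
        rw [e2, Finset.card_erase_of_mem (Finset.mem_filter.2 ⟨hb, hpb⟩)]
      · have e : (fun w : List α => h ((b :: w).filter p)) =
            fun w : List α => h (w.filter p) := by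
          funext w
          simp [hpb]
        rw [e, ih _ hc]
        have e2 : (A.erase b).filter p = A.filter p := by
          ext t
          simp only [Finset.mem_filter, Finset.mem_erase]
          constructor
          · rintro ⟨⟨_, h1⟩, h2⟩
            exact ⟨h1, h2⟩
          · rintro ⟨h1, h2⟩
            refine ⟨⟨?_, h1⟩, h2⟩
            rintro rfl
            exact hpb h2
        rw [e2]
    rw [Finset.sum_congr rfl h1, Finset.sum_ite, Finset.sum_const, nsmul_eq_mul]
    have h2 := Finset.card_filter_add_card_filter_not (s := A) p
    have hk : ((k : ℚ) + 1) = (A.filter p).card + (A.filter fun a => ¬ p a).card := by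
      have : ((A.filter p).card + (A.filter fun a => ¬ p a).card : ℕ) = k + 1 := by omega
      exact_mod_cast this.symm
    have hpos : (0 : ℚ) < k + 1 := by positivity
    rw [div_eq_iff hpos.ne']
    rcases Nat.eq_zero_or_pos (A.filter p).card with h0 | h0
    · have h3 : A.filter p = ∅ := Finset.card_eq_zero.1 h0
      rw [h0] at hk
      rw [h3, hk, Finset.card_empty, E_zero, Finset.sum_empty]
      push_cast
      ring
    · obtain ⟨j, hj⟩ : ∃ j, (A.filter p).card = j + 1 := ⟨_, (Nat.succ_pred_eq_of_pos h0).symm⟩
      have h4 : E (A.filter p).card (A.filter p) h =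
          (∑ b ∈ A.filter p, E ((A.filter p).card - 1) ((A.filter p).erase b)
            fun w => h (b :: w)) / (A.filter p).card := by
        rw [hj, E_succ]
        push_cast
        simp
      have h5 : ((A.filter p).card : ℚ) ≠ 0 := by
        rw [hj]
        positivity
      rw [eq_div_iff h5] at h4
      rw [← h4, hk]
      ring

end average

section firsts
variable {α : Type*} [PartialOrder α] [DecidableEq α] [DecidableRel (α := α) (· ≤ ·)]
  [DecidableRel (α := α) (· < ·)]

/-- the first letters of the preimages of the word `w x` under the promotion (bubble) map -/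
def firsts (x : α) : List α → Multiset α
  | [] => {x}
  | b :: w => Multiset.replicate ((firsts x w).countP fun a => b < a) b +
      (firsts x w).filter fun a => ¬ a < b

/-- the number of preimages of the word `w x` -/
def cnt (x : α) (w : List α) : ℕ := Multiset.card (firsts x w)

omit [DecidableEq α] [DecidableRel (α := α) (· ≤ ·)] in
lemma firsts_le (x : α) (w : List α) : ∀ a ∈ firsts x w, a ≤ x := by
  induction w with
  | nil =>
    intro a ha
    simp only [firsts, Multiset.mem_singleton] at ha
    exact ha.le
  | cons b w ih =>
    intro a ha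
    simp only [firsts, Multiset.mem_add, Multiset.mem_replicate, Multiset.mem_filter] at ha
    rcases ha with ⟨h1, rfl⟩ | ⟨h1, _⟩
    · have : 0 < (firsts x w).countP fun c => a < c := Nat.pos_of_ne_zero h1
      rw [Multiset.countP_pos] at this
      obtain ⟨c, hc, hac⟩ := this
      exact hac.le.trans (ih c hc)
    · exact ih a h1

omit [DecidableEq α] [DecidableRel (α := α) (· ≤ ·)] in
lemma firsts_up {x b : α} (hb : b < x) (w : List α) :
    (firsts x w).filter (fun a => b < a) = firsts x (w.filter fun a => b < a) := by
  induction w with
  | nil => simp [firsts, hb]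
  | cons c w ih =>
    by_cases hbc : b < c
    · have e : (c :: w).filter (fun a => b < a) = c :: w.filter fun a => b < a := by simp [hbc]
      rw [e]
      simp only [firsts, Multiset.filter_add]
      rw [← ih, Multiset.countP_filter]
      congr 1
      · rw [Multiset.filter_eq_self.2]
        · congr 1
          apply Multiset.countP_congr rfl
          intro a _
          simp only [eq_iff_iff]
          exact ⟨fun h => ⟨h, hbc.trans h⟩, fun h => h.1⟩
        · intro a ha
          rw [Multiset.eq_of_mem_replicate ha]
          exact hbc
      · rw [Multiset.filter_comm]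
    · have e : (c :: w).filter (fun a => b < a) = w.filter fun a => b < a := by simp [hbc]
      rw [e, ← ih]
      simp only [firsts, Multiset.filter_add]
      rw [Multiset.filter_eq_nil.2, Multiset.filter_filter, zero_add]
      · apply Multiset.filter_congr
        intro a _
        constructor
        · exact fun h => h.1
        · intro h
          exact ⟨h, fun h2 => hbc (h.trans h2)⟩
      · intro a ha
        rw [Multiset.eq_of_mem_replicate ha]
        exact hbc

omit [DecidableEq α] [DecidableRel (α := α) (· ≤ ·)] in
lemma firsts_down {x b : α} (hb : ¬ x < b) (w : List α) :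
    (firsts x w).filter (fun a => ¬ a < b) = firsts x (w.filter fun a => ¬ a < b) := by
  induction w with
  | nil => simp [firsts, hb]
  | cons c w ih =>
    by_cases hcb : c < b
    · have e : (c :: w).filter (fun a => ¬ a < b) = w.filter fun a => ¬ a < b := by simp [hcb]
      rw [e, ← ih]
      simp only [firsts, Multiset.filter_add]
      rw [Multiset.filter_eq_nil.2, Multiset.filter_filter, zero_add]
      · apply Multiset.filter_congr
        intro a _
        constructor
        · exact fun h => h.1
        · intro h
          exact ⟨h, fun h2 => h (h2.trans hcb)⟩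
      · intro a ha
        rw [Multiset.eq_of_mem_replicate ha]
        exact not_not.2 hcb
    · have e : (c :: w).filter (fun a => ¬ a < b) = c :: w.filter fun a => ¬ a < b := by
        simp [hcb]
      rw [e]
      simp only [firsts, Multiset.filter_add]
      rw [← ih, Multiset.countP_filter]
      congr 1
      · rw [Multiset.filter_eq_self.2]
        · congr 1
          apply Multiset.countP_congr rfl
          intro a _
          simp only [eq_iff_iff]
          exact ⟨fun h => ⟨h, fun h2 => hcb (h.trans h2)⟩, fun h => h.1⟩
        · intro a ha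
          rw [Multiset.eq_of_mem_replicate ha]
          exact hcb
      · rw [Multiset.filter_comm]

omit [DecidableEq α] [DecidableRel (α := α) (· ≤ ·)] in
lemma cnt_cons (x b : α) (w : List α) : cnt x (b :: w) =
    if x < b then 0 else cnt x (w.filter fun a => ¬ a < b) +
      if b < x then cnt x (w.filter fun a => b < a) else 0 := by
  have h1 : cnt x (b :: w) = Multiset.card ((firsts x w).filter fun a => b < a) +
      Multiset.card ((firsts x w).filter fun a => ¬ a < b) := by
    unfold cnt
    simp only [firsts, Multiset.card_add, Multiset.card_replicate]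
    rw [Multiset.countP_eq_card_filter]
  rw [h1]
  split_ifs with hxb hbx
  · rw [Multiset.filter_eq_nil.2, Multiset.filter_eq_nil.2]
    · simp
    · intro a ha
      exact not_not.2 (lt_of_le_of_lt (firsts_le x w a ha) hxb)
    · intro a ha h
      exact lt_asymm (lt_of_lt_of_le h (firsts_le x w a ha)) hxb
  · rw [firsts_up hbx, firsts_down hxb]
    unfold cnt
    ring
  · rw [firsts_down hxb, Multiset.filter_eq_nil.2]
    · simp [cnt]
    · intro a ha h
      exact hbx (lt_of_lt_of_le h (firsts_le x w a ha))

end firsts

section main
variable {α : Type*} [PartialOrder α] [DecidableEq α] [DecidableRel (α := α) (· ≤ ·)]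
  [DecidableRel (α := α) (· < ·)]

/-- `|B|` times the degree of noninvertibility of the promotion map of the poset `B` -/
def S (B : Finset α) : ℚ := ∑ x ∈ B, E (B.card - 1) (B.erase x) fun w => (cnt x w : ℚ) ^ 2

lemma step_bound (B : Finset α) (k : ℕ) (hB : B.card = k + 2) {x b : α} (hx : x ∈ B) (hb : b ∈ B)
    (hxb : b ≠ x) (l : ℚ) (hl : 0 < l) :
    E k ((B.erase x).erase b) (fun w => (cnt x (b :: w) : ℚ) ^ 2) ≤
      (if x ∈ B.filter (fun y => ¬ y ≤ b) then
        (1 + l) * E ((B.filter fun y => ¬ y ≤ b).card - 1) ((B.filter fun y => ¬ y ≤ b).erase x)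
          (fun w => (cnt x w : ℚ) ^ 2) else 0) +
      (if x ∈ B.filter (fun y => b < y) then
        (1 + 1 / l) * E ((B.filter fun y => b < y).card - 1) ((B.filter fun y => b < y).erase x)
          (fun w => (cnt x w : ℚ) ^ 2) else 0) := by
  have hC : ((B.erase x).erase b).card = k := by
    rw [Finset.card_erase_of_mem (Finset.mem_erase.2 ⟨hxb, hb⟩), Finset.card_erase_of_mem hx, hB]
    rfl
  have hnn : ∀ (j : ℕ) (A : Finset α), 0 ≤ E j A (fun w => (cnt x w : ℚ) ^ 2) := by
    intro j A
    rw [← E_zero_fun j A]
    exact E_mono _ _ _ _ fun w => by positivity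
  by_cases h1 : x < b
  · have e : (fun w : List α => (cnt x (b :: w) : ℚ) ^ 2) = fun _ => 0 := by
      funext w
      rw [cnt_cons, if_pos h1]
      simp
    rw [e, E_zero_fun]
    have n1 : x ∉ B.filter (fun y => ¬ y ≤ b) := by simp [h1.le]
    have n2 : x ∉ B.filter (fun y => b < y) := by simp [lt_asymm h1]
    rw [if_neg n1, if_neg n2]
    simp
  · have m1 : x ∈ B.filter (fun y => ¬ y ≤ b) := by
      simp only [Finset.mem_filter]
      exact ⟨hx, fun h => h1 (lt_of_le_of_ne h (Ne.symm hxb))⟩
    rw [if_pos m1]
    -- the first term
    have f1 : E k ((B.erase x).erase b) (fun w => (cnt x (w.filter fun a => ¬ a < b) : ℚ) ^ 2) =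
        E ((B.filter fun y => ¬ y ≤ b).card - 1) ((B.filter fun y => ¬ y ≤ b).erase x)
          (fun w => (cnt x w : ℚ) ^ 2) := by
      rw [E_filter (fun a => ¬ a < b) k _ hC (fun w => (cnt x w : ℚ) ^ 2)]
      have e : ((B.erase x).erase b).filter (fun a => ¬ a < b) =
          (B.filter fun y => ¬ y ≤ b).erase x := by
        ext t
        simp only [Finset.mem_filter, Finset.mem_erase]
        constructor
        · rintro ⟨⟨h2, h3, h4⟩, h5⟩
          exact ⟨h3, h4, fun h => h5 (lt_of_le_of_ne h h2)⟩
        · rintro ⟨h2, h3, h4⟩
          exact ⟨⟨fun h => h4 h.le, h2, h3⟩, fun h => h4 h.le⟩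
      rw [e, Finset.card_erase_of_mem m1]
    by_cases h2 : b < x
    · have m2 : x ∈ B.filter (fun y => b < y) := by simp [hx, h2]
      rw [if_pos m2]
      have f2 : E k ((B.erase x).erase b) (fun w => (cnt x (w.filter fun a => b < a) : ℚ) ^ 2) =
          E ((B.filter fun y => b < y).card - 1) ((B.filter fun y => b < y).erase x)
            (fun w => (cnt x w : ℚ) ^ 2) := by
        rw [E_filter (fun a => b < a) k _ hC (fun w => (cnt x w : ℚ) ^ 2)]
        have e : ((B.erase x).erase b).filter (fun a => b < a) =
            (B.filter fun y => b < y).erase x := by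
          ext t
          simp only [Finset.mem_filter, Finset.mem_erase]
          constructor
          · rintro ⟨⟨h2, h3, h4⟩, h5⟩
            exact ⟨h3, h4, h5⟩
          · rintro ⟨h2, h3, h4⟩
            exact ⟨⟨h4.ne', h2, h3⟩, h4⟩
        rw [e, Finset.card_erase_of_mem m2]
      rw [← f1, ← f2, ← E_smul, ← E_smul, ← E_add]
      apply E_mono
      intro w
      rw [cnt_cons, if_neg h1, if_pos h2]
      push_cast
      generalize (cnt x (w.filter fun a => ¬ a < b) : ℚ) = f
      generalize (cnt x (w.filter fun a => b < a) : ℚ) = g
      have h3 : 0 ≤ (l * f - g) ^ 2 / l := by positivity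
      have h4 : (1 + l) * f ^ 2 + (1 + 1 / l) * g ^ 2 - (f + g) ^ 2 = (l * f - g) ^ 2 / l := by
        field_simp
        ring
      linarith
    · have m2 : x ∉ B.filter (fun y => b < y) := by simp [h2]
      rw [if_neg m2, add_zero, ← f1, ← E_smul]
      apply E_mono
      intro w
      rw [cnt_cons, if_neg h1, if_neg h2, add_zero]
      have : 0 ≤ l * (cnt x (w.filter fun a => ¬ a < b) : ℚ) ^ 2 := by positivity
      linarith

lemma S_le (B : Finset α) :
    S B ≤ ((B.card : ℚ) + 2) * (B.card + 1) * B.card / 6 := by
  induction hn : B.card using Nat.strong_induction_on generalizing B with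
  | _ n ih =>
    match n, hn, ih with
    | 0, hn, _ =>
      rw [Finset.card_eq_zero] at hn
      simp [S, hn]
    | 1, hn, _ =>
      obtain ⟨x, rfl⟩ := Finset.card_eq_one.1 hn
      simp [S, E, cnt, firsts]
      norm_num
    | k + 2, hn, ih =>
      have hk : (0 : ℚ) < k + 1 := by positivity
      -- the weights
      set l : α → ℚ := fun b => ((qq B b : ℚ) + 2) / (mm B b + 2) with hl
      have hlpos : ∀ b, 0 < l b := by
        intro b
        rw [hl]
        positivity
      have h1 : (k + 1) * S B ≤ ∑ b ∈ B, ((1 + l b) * S (B.filter fun y => ¬ y ≤ b) +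
          (1 + 1 / l b) * S (B.filter fun y => b < y)) := by
        have e1 : (k + 1) * S B = ∑ x ∈ B, ∑ b ∈ B.erase x,
            E k ((B.erase x).erase b) (fun w => (cnt x (b :: w) : ℚ) ^ 2) := by
          unfold S
          rw [hn, Finset.mul_sum]
          apply Finset.sum_congr rfl
          intro x _
          have : k + 2 - 1 = k + 1 := rfl
          rw [this, E_succ, mul_div_cancel₀ _ hk.ne']
        rw [e1]
        have e2 : ∀ x ∈ B, ∑ b ∈ B.erase x,
            E k ((B.erase x).erase b) (fun w => (cnt x (b :: w) : ℚ) ^ 2) ≤ ∑ b ∈ B,
            ((if x ∈ B.filter (fun y => ¬ y ≤ b) then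
              (1 + l b) * E ((B.filter fun y => ¬ y ≤ b).card - 1)
                ((B.filter fun y => ¬ y ≤ b).erase x) (fun w => (cnt x w : ℚ) ^ 2) else 0) +
            (if x ∈ B.filter (fun y => b < y) then
              (1 + 1 / l b) * E ((B.filter fun y => b < y).card - 1)
                ((B.filter fun y => b < y).erase x) (fun w => (cnt x w : ℚ) ^ 2) else 0)) := by
          intro x hx
          rw [← Finset.add_sum_erase B _ hx]
          have n1 : x ∉ B.filter (fun y => ¬ y ≤ x) := by simp
          have n2 : x ∉ B.filter (fun y => x < y) := by simp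
          rw [if_neg n1, if_neg n2, add_zero, zero_add]
          apply Finset.sum_le_sum
          intro b hb
          rw [Finset.mem_erase] at hb
          exact step_bound B k hn hx hb.2 hb.1 (l b) (hlpos b)
        refine (Finset.sum_le_sum e2).trans ?_
        rw [Finset.sum_comm]
        apply Finset.sum_le_sum
        intro b _
        rw [Finset.sum_add_distrib, Finset.sum_ite_mem, Finset.sum_ite_mem,
          Finset.inter_eq_right.2 (Finset.filter_subset _ _),
          Finset.inter_eq_right.2 (Finset.filter_subset _ _), ← Finset.mul_sum, ← Finset.mul_sum]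
        rfl
      have h2 : ∀ b ∈ B, (1 + l b) * S (B.filter fun y => ¬ y ≤ b) +
          (1 + 1 / l b) * S (B.filter fun y => b < y) ≤ (Phi (mm B b) (qq B b) : ℚ) / 6 := by
        intro b hb
        have hm : (B.filter fun y => ¬ y ≤ b).card < k + 2 := by
          rw [← hn]
          apply Finset.card_lt_card
          rw [Finset.ssubset_iff_of_subset (Finset.filter_subset _ _)]
          exact ⟨b, hb, by simp⟩
        have hq : (B.filter fun y => b < y).card < k + 2 := by
          rw [← hn]
          apply Finset.card_lt_card
          rw [Finset.ssubset_iff_of_subset (Finset.filter_subset _ _)]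
          exact ⟨b, hb, by simp⟩
        have i1 := ih _ hm (B.filter fun y => ¬ y ≤ b) rfl
        have i2 := ih _ hq (B.filter fun y => b < y) rfl
        have hqm : (qq B b : ℚ) ≤ mm B b := by
          have : qq B b ≤ mm B b := by
            unfold qq mm
            apply Finset.card_le_card
            intro t
            simp only [Finset.mem_filter]
            rintro ⟨h1, h2⟩
            exact ⟨h1, not_le_of_gt h2⟩
          exact_mod_cast this
        change S (B.filter fun y => ¬ y ≤ b) ≤ ((mm B b : ℚ) + 2) * (mm B b + 1) * mm B b / 6 at i1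
        change S (B.filter fun y => b < y) ≤ ((qq B b : ℚ) + 2) * (qq B b + 1) * qq B b / 6 at i2
        have hl1 : (0 : ℚ) ≤ 1 + l b := by
          have := hlpos b
          linarith
        have hl2 : (0 : ℚ) ≤ 1 + 1 / l b := by
          have := hlpos b
          positivity
        have j1 := mul_le_mul_of_nonneg_left i1 hl1
        have j2 := mul_le_mul_of_nonneg_left i2 hl2
        have hm0 : (0 : ℚ) ≤ mm B b := by positivity
        have hq0 : (0 : ℚ) ≤ qq B b := by positivity
        simp only [hl] at j1 j2 ⊢
        unfold Phi
        push_cast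
        generalize (mm B b : ℚ) = m at *
        generalize (qq B b : ℚ) = q at *
        have e1 : (1 + (q + 2) / (m + 2)) * ((m + 2) * (m + 1) * m / 6) =
            ((m + 2) * (m + 1) * m + (q + 2) * (m + 1) * m) / 6 := by
          field_simp
        have e2 : (1 + 1 / ((q + 2) / (m + 2))) * ((q + 2) * (q + 1) * q / 6) =
            ((q + 2) * (q + 1) * q + (m + 2) * (q + 1) * q) / 6 := by
          field_simp
        rw [e1] at j1
        rw [e2] at j2
        refine (add_le_add j1 j2).trans ?_
        have e3 : 0 ≤ (q + 1) * (2 * (m - q)) := by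
          have : 0 ≤ m - q := by linarith
          positivity
        have e4 : (m + q + 2) * (m ^ 2 + 3 * m + q ^ 2 + q) / 6 -
            (((m + 2) * (m + 1) * m + (q + 2) * (m + 1) * m) / 6 +
              ((q + 2) * (q + 1) * q + (m + 2) * (q + 1) * q) / 6) =
            (q + 1) * (2 * (m - q)) / 6 := by
          ring
        linarith
      have h3 := Finset.sum_le_sum h2
      have h4 : ∑ b ∈ B, (Phi (mm B b) (qq B b) : ℚ) / 6 ≤
          ((k + 2 : ℚ) + 2) * (k + 2 + 1) * (k + 2) * (k + 1) / 6 := by
        rw [← Finset.sum_div]
        have := sum_Phi_le B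
        rw [hn] at this
        have h5 : (∑ b ∈ B, (Phi (mm B b) (qq B b) : ℚ)) ≤
            ((k + 2 : ℚ) + 2) * (k + 2 + 1) * (k + 2) * (k + 1) := by
          have h6 : ((∑ b ∈ B, Phi (mm B b) (qq B b) : ℤ) : ℚ) ≤
              (((((k + 2 : ℕ) : ℤ) + 2) * (((k + 2 : ℕ) : ℤ) + 1) * ((k + 2 : ℕ) : ℤ) *
                (((k + 2 : ℕ) : ℤ) - 1) : ℤ) : ℚ) := by exact_mod_cast this
          push_cast at h6
          refine h6.trans (le_of_eq ?_)
          ring
        linarith
      have h5 : (k + 1) * S B ≤ (k + 1) * (((k + 2 : ℚ) + 2) * (k + 2 + 1) * (k + 2) / 6) := by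
        refine (h1.trans (h3.trans h4)).trans (le_of_eq ?_)
        ring
      have h6 := le_of_mul_le_mul_left h5 hk
      push_cast
      exact h6

end main

/-! ## Enumerations -/

section enum
variable {α : Type*} [DecidableEq α]

/-- the duplicate free lists of length `k` with entries in `A` -/
def enum : ℕ → Finset α → Finset (List α)
  | 0, _ => {[]}
  | k + 1, A => A.biUnion fun b => (enum k (A.erase b)).image fun w => b :: w

lemma mem_enum (k : ℕ) : ∀ (A : Finset α) (w : List α),
    w ∈ enum k A ↔ w.length = k ∧ w.Nodup ∧ ∀ x ∈ w, x ∈ A := by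
  induction k with
  | zero =>
    intro A w
    simp only [enum, Finset.mem_singleton, List.length_eq_zero_iff]
    constructor
    · rintro rfl
      simp
    · exact fun h => h.1
  | succ k ih =>
    intro A w
    simp only [enum, Finset.mem_biUnion, Finset.mem_image]
    constructor
    · rintro ⟨b, hb, v, hv, rfl⟩
      rw [ih] at hv
      obtain ⟨h1, h2, h3⟩ := hv
      refine ⟨by simp [h1], ?_, ?_⟩
      · rw [List.nodup_cons]
        exact ⟨fun h => (Finset.mem_erase.1 (h3 b h)).1 rfl, h2⟩
      · intro x hx
        rcases List.mem_cons.1 hx with rfl | hx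
        · exact hb
        · exact Finset.mem_of_mem_erase (h3 x hx)
    · rintro ⟨h1, h2, h3⟩
      cases w with
      | nil => simp at h1
      | cons b v =>
        rw [List.nodup_cons] at h2
        refine ⟨b, h3 b (by simp), v, ?_, rfl⟩
        rw [ih]
        refine ⟨by simpa using h1, h2.2, ?_⟩
        intro x hx
        rw [Finset.mem_erase]
        exact ⟨fun h => h2.1 (h ▸ hx), h3 x (by simp [hx])⟩

lemma sum_enum (k : ℕ) : ∀ (A : Finset α) (h : List α → ℚ),
    ∑ w ∈ enum k A, h w = k.factorial * E k A h := by
  induction k with
  | zero =>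
    intro A h
    simp [enum, E]
  | succ k ih =>
    intro A h
    rw [E_succ]
    unfold enum
    rw [Finset.sum_biUnion]
    · have e : ∀ b ∈ A, ∑ w ∈ (enum k (A.erase b)).image (fun w => b :: w), h w =
          k.factorial * E k (A.erase b) (fun w => h (b :: w)) := by
        intro b _
        rw [Finset.sum_image, ih]
        intro v _ w _ hvw
        simpa using hvw
      rw [Finset.sum_congr rfl e, ← Finset.mul_sum, Nat.factorial_succ]
      push_cast
      have : ((k : ℚ) + 1) ≠ 0 := by positivity
      field_simp
    · intro b _ c _ hbc
      rw [Function.onFun, Finset.disjoint_left]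
      intro w hw1 hw2
      simp only [Finset.mem_image] at hw1 hw2
      obtain ⟨v, _, rfl⟩ := hw1
      obtain ⟨v', _, h2⟩ := hw2
      simp only [List.cons.injEq] at h2
      exact hbc h2.1.symm

lemma sum_enum_last (k : ℕ) (A : Finset α) (h : List α → ℚ) :
    ∑ u ∈ enum (k + 1) A, h u = ∑ x ∈ A, ∑ w ∈ enum k (A.erase x), h (w ++ [x]) := by
  have e : enum (k + 1) A = A.biUnion fun x => (enum k (A.erase x)).image fun w => w ++ [x] := by
    ext u
    rw [mem_enum]
    simp only [Finset.mem_biUnion, Finset.mem_image, mem_enum]
    constructor
    · rintro ⟨h1, h2, h3⟩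
      rcases List.eq_nil_or_concat u with rfl | ⟨w, x, rfl⟩
      · simp at h1
      · simp only [List.concat_eq_append] at *
        rw [List.nodup_append] at h2
        refine ⟨x, h3 x (by simp), w, ⟨by simpa using h1, h2.1, ?_⟩, rfl⟩
        intro y hy
        rw [Finset.mem_erase]
        exact ⟨h2.2.2 y hy x (by simp), h3 y (by simp [hy])⟩
    · rintro ⟨x, hx, w, ⟨h1, h2, h3⟩, rfl⟩
      refine ⟨by simp [h1], ?_, ?_⟩
      · rw [List.nodup_append]
        refine ⟨h2, by simp, ?_⟩
        intro y hy z hz
        simp only [List.mem_singleton] at hz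
        subst hz
        exact (Finset.mem_erase.1 (h3 y hy)).1
      · intro y hy
        simp only [List.mem_append, List.mem_singleton] at hy
        rcases hy with hy | rfl
        · exact Finset.mem_of_mem_erase (h3 y hy)
        · exact hx
  rw [e, Finset.sum_biUnion]
  · apply Finset.sum_congr rfl
    intro x _
    rw [Finset.sum_image]
    intro v _ w _ hvw
    simpa using hvw
  · intro b _ c _ hbc
    rw [Function.onFun, Finset.disjoint_left]
    intro w hw1 hw2
    simp only [Finset.mem_image] at hw1 hw2
    obtain ⟨v, _, rfl⟩ := hw1
    obtain ⟨v', _, h2⟩ := hw2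
    have := List.append_inj' h2 rfl
    simp only [List.cons.injEq, and_true] at this
    exact hbc this.2.symm

end enum

/-! ## Words -/

section words
variable {α : Type*} [DecidableEq α] [Fintype α]

/-- the labeling with a given word -/
def labelOf (w : List α) (x : α) : ℕ := w.idxOf x + 1

omit [Fintype α] in
lemma labelOf_inj {v w : List α} (hv : v.Nodup) (hl : v.length = w.length)
    (h : ∀ x ∈ v, labelOf v x = labelOf w x) : v = w := by
  apply List.ext_getElem hl
  intro i h1 h2
  have e1 := h v[i] (List.getElem_mem h1)
  unfold labelOf at e1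
  rw [hv.idxOf_getElem i h1] at e1
  have e2 : w.idxOf v[i] = i := by omega
  have e3 : w.idxOf v[i] < w.length := by omega
  have e4 := List.getElem_idxOf e3
  rw [← e4]
  congr 1

lemma mem_enum_univ {w : List α} (h : w ∈ enum (Fintype.card α) (univ : Finset α)) (x : α) :
    x ∈ w := by
  rw [mem_enum] at h
  have h1 : w.toFinset.card = Fintype.card α := by
    rw [List.toFinset_card_of_nodup h.2.1, h.1]
  have h2 : w.toFinset = univ := by
    rw [← Finset.card_eq_iff_eq_univ]
    exact h1
  have : x ∈ w.toFinset := by
    rw [h2]
    exact Finset.mem_univ x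
  simpa using this

/-- the labelings are the maps `labelOf w` for the enumerations `w` of `α` -/
lemma labelings_eq : labelings α =
    (enum (Fintype.card α) (univ : Finset α)).image labelOf := by
  ext L
  simp only [labelings, Finset.mem_filter, Fintype.mem_piFinset, Finset.mem_Icc,
    Finset.mem_image]
  constructor
  · rintro ⟨h1, h2⟩
    have hb : Function.Bijective (fun x : α => (⟨L x - 1, by have := h1 x; omega⟩ :
        Fin (Fintype.card α))) := by
      rw [Fintype.bijective_iff_injective_and_card]
      refine ⟨?_, by simp⟩
      intro x y hxy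
      apply h2
      have h3 := h1 x
      have h4 := h1 y
      simp only [Fin.mk.injEq] at hxy
      omega
    set e := Equiv.ofBijective _ hb with he
    refine ⟨List.ofFn e.symm, ?_, ?_⟩
    · rw [mem_enum]
      refine ⟨by simp, ?_, by simp⟩
      rw [List.nodup_ofFn]
      exact e.symm.injective
    · funext x
      unfold labelOf
      have hnd : (List.ofFn e.symm).Nodup := by
        rw [List.nodup_ofFn]
        exact e.symm.injective
      have h3 : (List.ofFn e.symm)[(e x : ℕ)]'(by simp) = x := by simp
      have h4 : (List.ofFn e.symm).idxOf x = e x := by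
        conv_lhs => rw [← h3]
        exact hnd.idxOf_getElem _ _
      rw [h4]
      have h5 : ((e x : Fin (Fintype.card α)) : ℕ) = L x - 1 := rfl
      rw [h5]
      have := h1 x
      omega
  · rintro ⟨w, hw, rfl⟩
    have hmem := mem_enum_univ hw
    rw [mem_enum] at hw
    constructor
    · intro x
      unfold labelOf
      have := List.idxOf_lt_length_of_mem (hmem x)
      omega
    · intro x y hxy
      unfold labelOf at hxy
      exact (List.idxOf_inj (hmem x)).1 (by omega)

lemma labelOf_injOn : Set.InjOn (labelOf (α := α))
    (enum (Fintype.card α) (univ : Finset α) : Set (List α)) := by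
  intro v hv w hw h
  rw [Finset.mem_coe, mem_enum] at hv hw
  exact labelOf_inj hv.2.1 (by omega) fun x _ => congrFun h x

end words

section bub
variable {α : Type*} [PartialOrder α] [DecidableRel (α := α) (· < ·)]

/-- the bubble pass: the word of the promotion of the labeling with word `v w` -/
def bub (v : α) : List α → List α
  | [] => [v]
  | b :: w => if v < b then v :: bub b w else b :: bub v w

lemma bub_perm (w : List α) : ∀ v : α, (bub v w).Perm (v :: w) := by
  induction w with
  | nil =>
    intro v
    simp [bub]
  | cons b w ih =>
    intro v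
    unfold bub
    split_ifs
    · exact (ih b).cons v
    · exact ((ih v).cons b).trans (List.Perm.swap v b w)

lemma bub_length (v : α) (w : List α) : (bub v w).length = w.length + 1 := by
  simpa using (bub_perm w v).length_eq

/-- the preimages of the word `w x` under the bubble pass -/
def pre (x : α) : List α → List (α × List α)
  | [] => [(x, [])]
  | b :: w => (((pre x w).filter fun p => b < p.1).map fun p => (b, p.1 :: p.2)) ++
      (((pre x w).filter fun p => ¬ p.1 < b).map fun p => (p.1, b :: p.2))

lemma pre_firsts (x : α) (w : List α) :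
    (((pre x w).map Prod.fst : List α) : Multiset α) = firsts x w := by
  induction w with
  | nil => rfl
  | cons b w ih =>
    simp only [pre, firsts]
    rw [← ih, List.map_append, List.map_map, List.map_map, ← Multiset.coe_add]
    congr 1
    · have e : (Prod.fst ∘ fun p : α × List α => (b, p.1 :: p.2)) = fun _ => b := rfl
      rw [e, List.map_const', Multiset.coe_countP]
      rw [List.countP_map, ← List.countP_eq_length_filter]
      rfl
    · have e : (Prod.fst ∘ fun p : α × List α => (p.1, b :: p.2)) = Prod.fst := rfl
      rw [e, Multiset.filter_coe, List.filter_map]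
      rfl

lemma pre_length (x : α) (w : List α) : (pre x w).length = cnt x w := by
  unfold cnt
  rw [← pre_firsts]
  simp

lemma mem_pre (x : α) (w : List α) : ∀ p : α × List α,
    p ∈ pre x w ↔ bub p.1 p.2 = w ++ [x] := by
  induction w with
  | nil =>
    rintro ⟨v, t⟩
    simp only [pre, List.mem_singleton, Prod.mk.injEq, List.nil_append]
    constructor
    · rintro ⟨rfl, rfl⟩
      rfl
    · intro h
      have hl := congrArg List.length h
      rw [bub_length] at hl
      simp only [List.length_singleton] at hl
      have ht : t = [] := List.length_eq_zero_iff.1 (by omega)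
      subst ht
      simpa [bub] using h
  | cons b w ih =>
    rintro ⟨v, t⟩
    simp only [pre, List.mem_append, List.mem_map, List.mem_filter, Prod.mk.injEq,
      decide_eq_true_eq]
    constructor
    · rintro (⟨⟨a, s⟩, ⟨h1, h2⟩, h3, h4⟩ | ⟨⟨a, s⟩, ⟨h1, h2⟩, h3, h4⟩)
      · simp only at h2 h3 h4
        subst h3 h4
        have := (ih _).1 h1
        simp only [bub, if_pos h2, List.cons_append]
        rw [this]
      · simp only at h2 h3 h4
        subst h3 h4
        have := (ih _).1 h1
        simp only [bub, if_neg h2, List.cons_append]
        rw [this]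
    · intro h
      cases t with
      | nil =>
        simp [bub] at h
      | cons c s =>
        simp only [bub] at h
        split_ifs at h with hvc
        · simp only [List.cons_append, List.cons.injEq] at h
          obtain ⟨rfl, h⟩ := h
          exact Or.inl ⟨(c, s), ⟨(ih _).2 h, hvc⟩, rfl, rfl⟩
        · simp only [List.cons_append, List.cons.injEq] at h
          obtain ⟨rfl, h⟩ := h
          exact Or.inr ⟨(v, s), ⟨(ih _).2 h, hvc⟩, rfl, rfl⟩

lemma pre_nodup (x : α) (w : List α) : (pre x w).Nodup := by
  induction w with
  | nil => simp [pre]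
  | cons b w ih =>
    simp only [pre]
    rw [List.nodup_append]
    refine ⟨?_, ?_, ?_⟩
    · apply (ih.filter _).map
      rintro ⟨a, s⟩ ⟨a', s'⟩ h
      simpa using h
    · apply (ih.filter _).map
      rintro ⟨a, s⟩ ⟨a', s'⟩ h
      simpa using h
    · intro p hp q hq hpq
      simp only [List.mem_map, List.mem_filter, decide_eq_true_eq] at hp hq
      obtain ⟨⟨a, s⟩, ⟨_, h2⟩, h3⟩ := hp
      obtain ⟨⟨a', s'⟩, ⟨_, h2'⟩, h3'⟩ := hq
      rw [← h3, ← h3'] at hpq
      simp only [Prod.mk.injEq, List.cons.injEq] at hpq
      simp only at h2
      rw [hpq.2.1] at h2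
      exact lt_irrefl _ h2

end bub

section link
variable {α : Type*} [PartialOrder α] [Fintype α] [DecidableEq α] [DecidableRel (α := α) (· < ·)]

omit [Fintype α] [DecidableEq α] [DecidableRel (α := α) (· < ·)] in
lemma succ_unique {L : α → ℕ} (hL : Function.Injective L) {x y z : α} (hy : IsSucc L x y)
    (hz : IsSucc L x z) : y = z :=
  hL (le_antisymm (hy.2 z hz.1) (hz.2 y hy.1))

omit [Fintype α] [DecidableEq α] [DecidableRel (α := α) (· < ·)] in
lemma onChain_reach {L : α → ℕ} (hL : Function.Injective L) {a : α} (ha : L a = 1) {y : α}
    (hy : OnChain L y) : Relation.ReflTransGen (IsSucc L) a y := by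
  induction hy with
  | first h =>
    have := hL (ha.trans h.symm)
    rw [this]
  | next _ h ih => exact ih.tail h

omit [Fintype α] [DecidableEq α] [DecidableRel (α := α) (· < ·)] in
lemma reach_le {L : α → ℕ} {x y : α} (h : Relation.ReflTransGen (IsSucc L) x y) : x ≤ y := by
  induction h with
  | refl => exact le_rfl
  | tail _ h ih => exact ih.trans h.1.le

omit [DecidableEq α] in
/-- the key computation: a bubble pass computes the promotion -/
lemma promotion_bub {L : α → ℕ} (hL : Function.Injective L) (w : List α) :
    ∀ (v : α) (s : ℕ), s + w.length = Fintype.card α → OnChain L v → v ∉ w → w.Nodup →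
      (∀ (i : ℕ) (hi : i < w.length), L w[i] = s + 1 + i) →
      (∀ y, v < y → y ∈ w) →
      (∀ y ∈ w, OnChain L y → Relation.ReflTransGen (IsSucc L) v y) →
      ∀ (j : ℕ) (hj : j < (bub v w).length), promotion L (bub v w)[j] = s + j := by
  classical
  induction w with
  | nil =>
    intro v s hs hv _ _ _ hup _ j hj
    simp only [bub, List.length_singleton, Nat.lt_one_iff] at hj
    subst hj
    simp only [bub, List.getElem_singleton]
    have hno : ¬ ∃ y, IsSucc L v y := by
      rintro ⟨y, hy⟩
      simpa using hup y hy.1
    unfold promotion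
    rw [if_pos hv, dif_neg hno]
    simpa using hs.symm
  | cons b w ih =>
    intro v s hs hv hvw hnd hlab hup hreach j hj
    have hvb : v ≠ b := fun h => hvw (by simp [h])
    rw [List.nodup_cons] at hnd
    have hlb : L b = s + 1 := by
      have := hlab 0 (by simp)
      simpa using this
    have hlw : ∀ (i : ℕ) (hi : i < w.length), L w[i] = s + 1 + 1 + i := by
      intro i hi
      have := hlab (i + 1) (by simp [hi])
      simp only [List.getElem_cons_succ] at this
      omega
    have hcard : s + 1 + w.length = Fintype.card α := by
      simp only [List.length_cons] at hs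
      omega
    by_cases hc : v < b
    · -- `b` is the successor of `v`
      have hsucc : IsSucc L v b := by
        refine ⟨hc, ?_⟩
        intro z hz
        have hzw := hup z hz
        rcases List.mem_cons.1 hzw with rfl | hzw
        · exact le_rfl
        · obtain ⟨i, hi, rfl⟩ := List.getElem_of_mem hzw
          rw [hlb, hlw i hi]
          omega
      have e : bub v (b :: w) = v :: bub b w := by simp [bub, hc]
      have hj' : j < (v :: bub b w).length := by rw [← e]; exact hj
      have e2 : (bub v (b :: w))[j] = (v :: bub b w)[j] := by
        congr 1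
      rw [e2]
      cases j with
      | zero =>
        simp only [List.getElem_cons_zero]
        have hex : ∃ y, IsSucc L v y := ⟨b, hsucc⟩
        unfold promotion
        rw [if_pos hv, dif_pos hex, succ_unique hL hex.choose_spec hsucc, hlb]
        omega
      | succ j =>
        simp only [List.getElem_cons_succ]
        rw [ih b (s + 1) hcard (OnChain.next hv hsucc) hnd.1 hnd.2 hlw ?_ ?_ j
          (by simpa using hj')]
        · omega
        · intro y hy
          rcases List.mem_cons.1 (hup y (hc.trans hy)) with rfl | h
          · exact absurd hy (lt_irrefl _)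
          · exact h
        · intro y hy hy2
          have h1 := hreach y (by simp [hy]) hy2
          rcases Relation.ReflTransGen.cases_head h1 with h2 | ⟨c, h2, h3⟩
          · exact absurd (h2 ▸ hy) (fun h => hvw (by simp [h]))
          · rwa [succ_unique hL h2 hsucc] at h3
    · have e : bub v (b :: w) = b :: bub v w := by simp [bub, hc]
      have hj' : j < (b :: bub v w).length := by rw [← e]; exact hj
      have e2 : (bub v (b :: w))[j] = (b :: bub v w)[j] := by
        congr 1
      rw [e2]
      cases j with
      | zero =>
        simp only [List.getElem_cons_zero]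
        have hnb : ¬ OnChain L b := by
          intro h
          have h1 := reach_le (hreach b (by simp) h)
          exact hc (lt_of_le_of_ne h1 hvb)
        unfold promotion
        rw [if_neg hnb, hlb]
        omega
      | succ j =>
        simp only [List.getElem_cons_succ]
        rw [ih v (s + 1) hcard hv (fun h => hvw (by simp [h])) hnd.2 hlw ?_ ?_ j
          (by simpa using hj')]
        · omega
        · intro y hy
          rcases List.mem_cons.1 (hup y hy) with rfl | h
          · exact absurd hy hc
          · exact h
        · intro y hy hy2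
          exact hreach y (by simp [hy]) hy2

lemma bub_mem_enum {a : α} {t : List α} (h : a :: t ∈ enum (Fintype.card α) (univ : Finset α)) :
    bub a t ∈ enum (Fintype.card α) (univ : Finset α) := by
  rw [mem_enum] at h ⊢
  have hp := bub_perm t a
  exact ⟨hp.length_eq.trans h.1, hp.nodup_iff.2 h.2.1, fun x _ => Finset.mem_univ x⟩

lemma of_bub_mem_enum {a : α} {t : List α}
    (h : bub a t ∈ enum (Fintype.card α) (univ : Finset α)) :
    a :: t ∈ enum (Fintype.card α) (univ : Finset α) := by
  rw [mem_enum] at h ⊢
  have hp := bub_perm t a
  exact ⟨hp.length_eq.symm.trans h.1, hp.nodup_iff.1 h.2.1, fun x _ => Finset.mem_univ x⟩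

/-- the promotion of the labeling with word `a t` is the labeling with word `bub a t` -/
lemma promotion_labelOf {a : α} {t : List α}
    (h : a :: t ∈ enum (Fintype.card α) (univ : Finset α)) :
    promotion (labelOf (a :: t)) = labelOf (bub a t) := by
  have hmem := mem_enum_univ h
  have h' := h
  rw [mem_enum] at h'
  obtain ⟨h1, h2, _⟩ := h'
  have hLinj : Function.Injective (labelOf (a :: t)) := by
    intro x y hxy
    unfold labelOf at hxy
    exact (List.idxOf_inj (hmem x)).1 (by omega)
  have hLa : labelOf (a :: t) a = 1 := by simp [labelOf]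
  rw [List.nodup_cons] at h2
  have hb := bub_mem_enum h
  have hbmem := mem_enum_univ hb
  rw [mem_enum] at hb
  have key := promotion_bub hLinj t a 1 (by simpa [add_comm] using h1) (OnChain.first hLa) h2.1
    h2.2 ?_ ?_ ?_
  · funext x
    have hx := List.idxOf_lt_length_of_mem (hbmem x)
    have := key _ hx
    rw [List.getElem_idxOf hx] at this
    rw [this]
    unfold labelOf
    omega
  · intro i hi
    unfold labelOf
    have hnd : (a :: t).Nodup := List.nodup_cons.2 h2
    have := hnd.idxOf_getElem (i + 1) (by simp [hi])
    simp only [List.getElem_cons_succ] at this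
    rw [this]
    omega
  · intro y hy
    rcases List.mem_cons.1 (hmem y) with rfl | h3
    · exact absurd hy (lt_irrefl _)
    · exact h3
  · intro y _ hy2
    exact onChain_reach hLinj hLa hy2

/-- the number of preimages -/
lemma card_preimage {x : α} {w : List α}
    (hu : w ++ [x] ∈ enum (Fintype.card α) (univ : Finset α)) :
    ((labelings α).filter fun L => promotion L = labelOf (w ++ [x])).card = cnt x w := by
  classical
  rw [← pre_length, ← List.toFinset_card_of_nodup (pre_nodup x w)]
  symm
  apply Finset.card_bij (fun p _ => labelOf (p.1 :: p.2))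
  · intro p hp
    rw [List.mem_toFinset, mem_pre] at hp
    have h1 : p.1 :: p.2 ∈ enum (Fintype.card α) (univ : Finset α) := by
      apply of_bub_mem_enum
      rw [hp]
      exact hu
    rw [Finset.mem_filter]
    refine ⟨?_, ?_⟩
    · rw [labelings_eq]
      exact Finset.mem_image_of_mem _ h1
    · rw [promotion_labelOf h1, hp]
  · intro p hp q hq hpq
    rw [List.mem_toFinset, mem_pre] at hp hq
    have h1 : p.1 :: p.2 ∈ enum (Fintype.card α) (univ : Finset α) := by
      apply of_bub_mem_enum
      rw [hp]
      exact hu
    have h2 : q.1 :: q.2 ∈ enum (Fintype.card α) (univ : Finset α) := by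
      apply of_bub_mem_enum
      rw [hq]
      exact hu
    have h3 := labelOf_injOn h1 h2 hpq
    simp only [List.cons.injEq] at h3
    exact Prod.ext h3.1 h3.2
  · intro L hL
    rw [Finset.mem_filter, labelings_eq, Finset.mem_image] at hL
    obtain ⟨⟨u, hu1, rfl⟩, hu2⟩ := hL
    cases u with
    | nil =>
      have h1 := mem_enum_univ hu1 x
      simp at h1
    | cons a t =>
      refine ⟨(a, t), ?_, rfl⟩
      rw [List.mem_toFinset, mem_pre]
      rw [promotion_labelOf hu1] at hu2
      exact labelOf_injOn (bub_mem_enum hu1) hu hu2

end link

/-- there are `n!` labelings -/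
lemma card_labelings (α : Type*) [Fintype α] [DecidableEq α] :
    (labelings α).card = (Fintype.card α).factorial := by
  rw [labelings_eq, Finset.card_image_of_injOn labelOf_injOn]
  have h := sum_enum (Fintype.card α) (univ : Finset α) (fun _ => 1)
  have h2 : ∀ (k : ℕ) (A : Finset α), A.card = k → E k A (fun _ => 1) = 1 := by
    intro k
    induction k with
    | zero =>
      intro A _
      rfl
    | succ k ih =>
      intro A hA
      rw [E_succ, Finset.sum_congr rfl fun b hb => ih (A.erase b) (by
        rw [Finset.card_erase_of_mem hb]
        omega)]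
      rw [Finset.sum_const, hA]
      have : ((k : ℚ) + 1) ≠ 0 := by positivity
      simp [this]
  rw [h2 _ _ Finset.card_univ] at h
  simp only [Finset.sum_const, nsmul_eq_mul, mul_one] at h
  exact_mod_cast h

/-- promotion maps labelings to labelings -/
lemma promotion_mem {α : Type*} [PartialOrder α] [Fintype α] [DecidableEq α] [Nonempty α]
    {L : α → ℕ} (hL : L ∈ labelings α) : promotion L ∈ labelings α := by
  classical
  rw [labelings_eq, Finset.mem_image] at hL
  obtain ⟨u, hu, rfl⟩ := hL
  cases u with
  | nil =>
    have h1 := mem_enum_univ hu (Classical.arbitrary α)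
    simp at h1
  | cons a t =>
    rw [promotion_labelOf hu, labelings_eq]
    exact Finset.mem_image_of_mem _ (bub_mem_enum hu)

open Classical in
lemma degree_eq (α : Type*) [PartialOrder α] [Fintype α] [Nonempty α] :
    degree α = S (univ : Finset α) / Fintype.card α := by
  obtain ⟨k, hk⟩ : ∃ k, Fintype.card α = k + 1 :=
    ⟨_, (Nat.succ_pred_eq_of_pos Fintype.card_pos).symm⟩
  have h1 : ∑ L' ∈ labelings α,
      (((labelings α).filter fun L => promotion L = L').card : ℚ) ^ 2 =
      k.factorial * S (univ : Finset α) := by
    rw [labelings_eq, Finset.sum_image labelOf_injOn, ← labelings_eq]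
    have h2 := sum_enum_last k (univ : Finset α) (fun u =>
      (((labelings α).filter fun L => promotion L = labelOf u).card : ℚ) ^ 2)
    rw [← hk] at h2
    rw [h2]
    unfold S
    rw [Finset.mul_sum]
    apply Finset.sum_congr rfl
    intro x _
    have h3 : (univ : Finset α).card - 1 = k := by
      rw [Finset.card_univ, hk]
      rfl
    rw [h3, ← sum_enum]
    apply Finset.sum_congr rfl
    intro w hw
    have hu : w ++ [x] ∈ enum (Fintype.card α) (univ : Finset α) := by
      rw [mem_enum] at hw ⊢
      refine ⟨by simp [hw.1, hk], ?_, fun y _ => Finset.mem_univ y⟩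
      rw [List.nodup_append]
      refine ⟨hw.2.1, by simp, ?_⟩
      intro y hy z hz
      simp only [List.mem_singleton] at hz
      subst hz
      exact (Finset.mem_erase.1 (hw.2.2 y hy)).1
    have h4 := card_preimage hu
    rw [← h4]
  unfold degree
  have hcard := card_labelings α
  rw [h1]
  have h5 : ((labelings α).card : ℚ) = (k + 1) * k.factorial := by
    have : (labelings α).card = (k + 1) * k.factorial := by
      rw [← Nat.factorial_succ, ← hk]
      exact hcard
    exact_mod_cast this
  rw [h5, hk]
  push_cast
  have h6 : (k.factorial : ℚ) ≠ 0 := by positivity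
  have h7 : ((k : ℚ) + 1) ≠ 0 := by positivity
  field_simp

open Classical in
lemma degree_le (α : Type*) [PartialOrder α] [Fintype α] [Nonempty α] :
    degree α ≤ ((Fintype.card α : ℚ) + 2) * (Fintype.card α + 1) / 6 := by
  rw [degree_eq]
  have h := S_le (univ : Finset α)
  rw [Finset.card_univ] at h
  have hpos : (0 : ℚ) < Fintype.card α := by
    have := Fintype.card_pos (α := α)
    exact_mod_cast this
  rw [div_le_iff₀ hpos]
  refine h.trans (le_of_eq ?_)
  ring

/-- **Q1.**  For each finite nonempty poset `α` with `n` elements the set of the labelings of `α` has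
`n!` elements, extended promotion maps it to itself, and the degree of noninvertibility of this map is
at most `(n + 2) (n + 1) / 6`. -/
theorem result (α : Type*) [PartialOrder α] [Fintype α] [DecidableEq α] [Nonempty α] :
    (labelings α).card = (Fintype.card α).factorial ∧
      (∀ L ∈ labelings α, promotion L ∈ labelings α) ∧
      degree α ≤ ((Fintype.card α : ℚ) + 2) * (Fintype.card α + 1) / 6 := by
  exact ⟨card_labelings α, fun L hL => promotion_mem hL, degree_le α⟩

end Pool.Agent.Results.MP_180e15_co.ChainMaximises
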